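import Pool.Agent.R827.Orb3

/-!
# MP_136091_gt: iterated orthogonals of `∅ → {•}` in the category of topological spaces

`TM.{u}` is the class of all morphisms of the category of all topological spaces (in the
universe `u`): two topological spaces `A`, `B` and a continuous map `f : A → B`.
`Lifts f g` is the lifting property of `f` on the left against `g`, `L C` is the left
orthogonal of a class `C`, `R C` its right orthogonal, and `iota` is the map from the empty
space to the one-point space.  For a word `w` in the letters `l` (`true`) and `r` (`false`)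
`orb w` is the class obtained from `{iota}` by applying the letters of `w` from left to right.
-/

namespace Pool.Agent.Results.MP_136091_gt.FiniteOrbit

open Pool.Agent.R827.Orb

universe u

/-- The class `C_0^w`; the letter `l` is `true` and the letter `r` is `false`. -/
def orb (w : List Bool) : Set TM.{u} :=
  w.foldl (fun C b => if b then L C else R C) {iota}

/-- The 22 classes of the orbit. -/
def classes : List (Set TM.{u}) :=
  [{iota}, N, K, Sp, SU, Inj, Qt, SI, T0, E, D, Z, Rr, G, CE, Den, M, R M, T1, L T1, Iso, All]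

theorem closedL : ∀ C ∈ classes.{u}, L C ∈ classes.{u} := by
  have hK : L K.{u} = N := by
    rw [← RN, ← LC0, LRL]
  have hRr : L Rr.{u} = Z := by
    rw [← RZ, ← LD, LRL]
  intro C hC
  simp only [classes, List.mem_cons, List.not_mem_nil, or_false] at hC ⊢
  rcases hC with rfl | rfl | rfl | rfl | rfl | rfl | rfl | rfl | rfl | rfl | rfl | rfl | rfl |
    rfl | rfl | rfl | rfl | rfl | rfl | rfl | rfl | rfl
  · rw [LC0]; simp
  · rw [LN]; simp
  · rw [hK]; simp
  · rw [LSp]; simp
  · rw [LSU]; simp
  · rw [LInj]; simp
  · rw [LQt]; simp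
  · rw [LSI]; simp
  · rw [LT0]; simp
  · rw [Pool.Agent.R827.Orb.LE]; simp
  · rw [LD]; simp
  · rw [LZ]; simp
  · rw [hRr]; simp
  · rw [LG]; simp
  · rw [LCE]; simp
  · rw [LDen]; simp
  · rw [LM]; simp
  · rw [LJ]; simp
  · simp
  · rw [LQ]; simp
  · rw [LIso]; simp
  · rw [LAll]; simp

theorem closedR : ∀ C ∈ classes.{u}, R C ∈ classes.{u} := by
  have hSU : R SU.{u} = Sp := by
    rw [← LSp, ← RK, RLR]
  have hQt : R Qt.{u} = Inj := by
    rw [← LInj, ← RSp, RLR]
  have hD : R D.{u} = E := by
    rw [← Pool.Agent.R827.Orb.LE, ← RC0, RLR]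
  have hCE : R CE.{u} = G := by
    rw [← LG, ← RRr, RLR]
  have hQ : R (L T1.{u}) = T1 := by
    rw [← RJ, RLR]
  intro C hC
  simp only [classes, List.mem_cons, List.not_mem_nil, or_false] at hC ⊢
  rcases hC with rfl | rfl | rfl | rfl | rfl | rfl | rfl | rfl | rfl | rfl | rfl | rfl | rfl |
    rfl | rfl | rfl | rfl | rfl | rfl | rfl | rfl | rfl
  · rw [RC0]; simp
  · rw [RN]; simp
  · rw [RK]; simp
  · rw [RSp]; simp
  · rw [hSU]; simp
  · rw [RInj]; simp
  · rw [hQt]; simp
  · rw [RSI]; simp
  · rw [RT0]; simp
  · rw [RE]; simp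
  · rw [hD]; simp
  · rw [RZ]; simp
  · rw [RRr]; simp
  · rw [RG]; simp
  · rw [hCE]; simp
  · rw [RDen]; simp
  · simp
  · rw [RJ]; simp
  · rw [RT1]; simp
  · rw [hQ]; simp
  · rw [RIso]; simp
  · rw [RAll]; simp

theorem orb_mem (w : List Bool) : orb.{u} w ∈ classes.{u} := by
  have key : ∀ (w : List Bool) (C : Set TM.{u}), C ∈ classes →
      w.foldl (fun C b => if b then L C else R C) C ∈ classes := by
    intro w
    induction w with
    | nil => exact fun C hC => hC
    | cons b w ih =>
      intro C hC
      rw [List.foldl_cons]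
      apply ih
      cases b
      · exact closedR C hC
      · exact closedL C hC
  exact key w {iota} (by simp [classes])

/-- **MP_136091_gt, Q1 (affirmative).**  The iterated orthogonals of `∅ → {•}` in the category
of all topological spaces form a finite family: there are at most 22 distinct classes. -/
theorem result :
    {C : Set TM.{u} | ∃ w : List Bool, C = orb w}.Finite ∧
      {C : Set TM.{u} | ∃ w : List Bool, C = orb w}.encard ≤ 22 := by
  classical
  have hsub : {C : Set TM.{u} | ∃ w : List Bool, C = orb w} ⊆
      (classes.{u}.toFinset : Set (Set TM.{u})) := by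
    rintro C ⟨w, rfl⟩
    simp only [List.coe_toFinset]
    exact orb_mem w
  refine ⟨(Finset.finite_toSet _).subset hsub, ?_⟩
  refine (Set.encard_le_encard hsub).trans ?_
  rw [Set.encard_coe_eq_coe_finsetCard]
  have : classes.{u}.toFinset.card ≤ 22 := List.toFinset_card_le _
  exact_mod_cast this

end Pool.Agent.Results.MP_136091_gt.FiniteOrbit
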